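import Pool.Agent.SymZF.CoreModel
import Pool.Agent.SymZF.PCore

/-!
# ZF does not prove that every idempotent filter on the positive integers extends to an idempotent
ultrafilter if some idempotent ultrafilter exists

There is a model of ZF with an idempotent ultrafilter on the positive integers and with an idempotent filter
on the positive integers which is not contained in any idempotent ultrafilter.
-/

set_option autoImplicit false

namespace Pool.Agent.Results.MP_257b8b_lc.ZFIdempotentFilters

open Pool.Agent.SymZF

theorem result : ∃ (M : Type) (E : M → M → Prop), IsModelZF E ∧ Separates E := by
  obtain ⟨𝔹, _, _, S, u, f, C⟩ := core_exists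
  exact model_of_core C

end Pool.Agent.Results.MP_257b8b_lc.ZFIdempotentFilters
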